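import Pool.Agent.Y148.OD.Stm

/-!
# Additivity of the transcendence degree (job 1658, helper148)
-/

set_option autoImplicit false

namespace Pool.Agent.Y255.OD

open Pool.Agent.Y148.OD Set AlgebraicIndependent

variable {Ω : Type*} [Field Ω]

lemma adj_eq (K : Subfield Ω) (s : Set Ω) :
    (IntermediateField.adjoin K s).toSubfield = adj K s := by
  have h : Set.range (algebraMap K Ω) = (K : Set Ω) := by
    ext x
    constructor
    · rintro ⟨y, rfl⟩
      exact y.2
    · intro hx
      exact ⟨⟨x, hx⟩, rfl⟩
  unfold adj
  rw [← h]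
  rfl

lemma alg_sub {F G : Subfield Ω} (h : F = G) (x : Ω) : IsAlgebraic F x ↔ IsAlgebraic G x := by
  subst h
  rfl

lemma mem_cl (K : Subfield Ω) (s : Set Ω) (x : Ω) :
    x ∈ (matroid K Ω).closure s ↔ IsAlgebraic (adj K s) x := by
  rw [matroid_closure_eq, SetLike.mem_coe, Subalgebra.mem_algebraicClosure,
    ← IntermediateField.isAlgebraic_adjoin_iff]
  exact alg_sub (adj_eq K s) x

lemma adj_adj (K : Subfield Ω) (s t : Set Ω) : adj (adj K t) s = adj K (s ∪ t) := by
  unfold adj
  apply le_antisymm
  · rw [Subfield.closure_le, Set.union_subset_iff]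
    refine ⟨?_, ?_⟩
    · show (Subfield.closure ((K : Set Ω) ∪ t)) ≤ Subfield.closure ((K : Set Ω) ∪ (s ∪ t))
      exact Subfield.closure_mono (by
        intro x hx
        rcases hx with hx | hx
        · exact Or.inl hx
        · exact Or.inr (Or.inr hx))
    · intro x hx
      exact Subfield.subset_closure (Or.inr (Or.inl hx))
  · rw [Subfield.closure_le, Set.union_subset_iff, Set.union_subset_iff]
    refine ⟨?_, ?_, ?_⟩
    · intro x hx
      exact Subfield.subset_closure (Or.inl (Subfield.subset_closure (Or.inl hx)))
    · intro x hx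
      exact Subfield.subset_closure (Or.inr hx)
    · intro x hx
      exact Subfield.subset_closure (Or.inl (Subfield.subset_closure (Or.inr hx)))

lemma cl_adj (K : Subfield Ω) (s t : Set Ω) :
    (matroid (adj K t) Ω).closure s = (matroid K Ω).closure (s ∪ t) := by
  ext x
  rw [mem_cl, mem_cl]
  exact alg_sub (adj_adj K s t) x

theorem union (K : Subfield Ω) (S T : Set Ω) : rk K (S ∪ T) = rk K T + rk (adj K T) S := by
  have hE : (matroid K Ω).E = univ := matroid_e ..
  obtain ⟨B, hB⟩ := (matroid K Ω).exists_isBasis T (by rw [hE]; exact subset_univ _)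
  obtain ⟨C, hC⟩ := (matroid (adj K T) Ω).exists_isBasis S
    (by rw [matroid_e]; exact subset_univ _)
  have hdis : Disjoint T C := by
    rw [Set.disjoint_left]
    intro x hxT hxC
    apply hC.indep.notMem_closure_sdiff_of_mem hxC
    rw [cl_adj]
    exact (matroid K Ω).mem_closure_of_mem (Or.inr hxT) (by rw [hE]; exact subset_univ _)
  have hcon : ((matroid K Ω).contract T).Indep C := by
    rw [Matroid.indep_iff_forall_notMem_closure_sdiff']
    refine ⟨?_, ?_⟩
    · rw [Matroid.contract_ground, hE]
      intro x hx
      exact ⟨mem_univ _, fun hxT => Set.disjoint_left.1 hdis hxT hx⟩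
    · intro e he h
      rw [Matroid.contract_closure_eq] at h
      apply hC.indep.notMem_closure_sdiff_of_mem he
      rw [cl_adj]
      exact h.1
  have hind := (hB.contract_indep_iff).1 hcon
  have hbas : (matroid K Ω).IsBasis (C ∪ B) (S ∪ T) := by
    rw [Matroid.isBasis_iff_indep_subset_closure]
    have hT : T ⊆ (matroid K Ω).closure (C ∪ B) :=
      hB.subset_closure.trans ((matroid K Ω).closure_subset_closure subset_union_right)
    refine ⟨hind.1, union_subset_union hC.subset hB.subset, union_subset ?_ hT⟩
    have h1 : S ⊆ (matroid K Ω).closure (C ∪ T) := by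
      rw [← cl_adj]
      exact hC.subset_closure
    refine h1.trans ?_
    refine (matroid K Ω).closure_subset_closure_of_subset_closure ?_
    refine union_subset ?_ hT
    exact subset_union_left.trans ((matroid K Ω).subset_closure _ (by
      rw [hE]; exact subset_univ _))
  unfold rk
  rw [← hbas.encard_eq_eRk, ← hB.encard_eq_eRk, ← hC.encard_eq_eRk, Set.encard_union_eq
    (Set.disjoint_of_subset_right hB.subset hdis.symm), add_comm]

theorem stmUnion : StmUnion := fun _ _ K S T => union K S T

end Pool.Agent.Y255.OD
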